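import Pool.Agent.H28.PM.Def

set_option autoImplicit false

namespace Pool.Agent.H28.PM

theorem mu_eq (σ τ : List ℕ) : mu σ τ =
    if σ = τ then 1 else if occ σ τ = 0 then 0
    else - ∑ z ∈ (patterns τ).filter (fun z => z.length < τ.length ∧ 1 ≤ occ σ z), mu σ z := by
  rw [mu]
  congr 2
  rw [Finset.sum_attach ((patterns τ).filter (fun z => z.length < τ.length ∧ 1 ≤ occ σ z))
    (fun z => mu σ z)]

@[simp] theorem std_length (l : List ℕ) : (std l).length = l.length := by simp [std]

@[simp] theorem std_nil : std [] = [] := rfl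

theorem std_map (s : List ℕ) (f : ℕ → ℕ) (h : ∀ x ∈ s, ∀ y ∈ s, f y ≤ f x ↔ y ≤ x) :
    std (s.map f) = std s := by
  unfold std
  rw [List.map_map]
  apply List.map_congr_left
  intro x hx
  simp only [Function.comp]
  rw [List.filter_map, List.length_map]
  congr 1
  apply List.filter_congr
  intro y hy
  simp only [Function.comp, decide_eq_decide]
  exact h x hx y hy

/-- Rank function of a list. -/
def rk (l : List ℕ) (x : ℕ) : ℕ := (l.filter (fun y => decide (y ≤ x))).length

theorem std_eq_map (l : List ℕ) : std l = l.map (rk l) := rfl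

theorem rk_le_iff (l : List ℕ) {x y : ℕ} (hy : y ∈ l) : rk l y ≤ rk l x ↔ y ≤ x := by
  constructor
  · intro h
    by_contra hc
    push Not at hc
    have hsub : (l.filter (fun z => decide (z ≤ x))).Sublist (l.filter (fun z => decide (z ≤ y))) := by
      apply List.monotone_filter_right
      intro z hz
      simp only [decide_eq_true_eq] at hz ⊢
      omega
    have heq : (l.filter (fun z => decide (z ≤ x))) = (l.filter (fun z => decide (z ≤ y))) :=
      hsub.eq_of_length_le h
    have hmem : y ∈ l.filter (fun z => decide (z ≤ y)) := by simp [hy]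
    rw [← heq] at hmem
    simp at hmem
    omega
  · intro h
    apply List.Sublist.length_le
    apply List.monotone_filter_right
    intro z hz
    simp only [decide_eq_true_eq] at hz ⊢
    omega

theorem std_sub_map (l s : List ℕ) (hs : ∀ x ∈ s, x ∈ l) : std (s.map (rk l)) = std s :=
  std_map s (rk l) (fun _ _ y hy => rk_le_iff l (hs y hy))

theorem std_std (l : List ℕ) : std (std l) = std l := by
  conv_lhs => rw [std_eq_map l]
  exact std_sub_map l l (fun _ h => h)

theorem mem_patterns (z τ : List ℕ) : z ∈ patterns τ ↔ ∃ s, s.Sublist τ ∧ std s = z := by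
  simp [patterns]

theorem occ_pos_iff (σ τ : List ℕ) : 1 ≤ occ σ τ ↔ σ ∈ patterns τ := by
  unfold occ
  rw [mem_patterns, Nat.one_le_iff_ne_zero, ← Nat.pos_iff_ne_zero, List.length_pos_iff_exists_mem]
  simp

theorem patterns_std (l : List ℕ) : patterns (std l) = patterns l := by
  ext z
  rw [mem_patterns, mem_patterns]
  constructor
  · rintro ⟨s, hs, rfl⟩
    rw [std_eq_map] at hs
    obtain ⟨t, ht, rfl⟩ := List.sublist_map_iff.mp hs
    exact ⟨t, ht, (std_sub_map l t (fun x hx => ht.subset hx)).symm⟩
  · rintro ⟨s, hs, rfl⟩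
    refine ⟨s.map (rk l), ?_, std_sub_map l s (fun x hx => hs.subset hx)⟩
    rw [std_eq_map]
    exact hs.map _

theorem patterns_mono {s l : List ℕ} (h : s.Sublist l) : patterns s ⊆ patterns l := by
  intro z hz
  rw [mem_patterns] at hz ⊢
  obtain ⟨t, ht, rfl⟩ := hz
  exact ⟨t, ht.trans h, rfl⟩

theorem patterns_trans {z l : List ℕ} (h : z ∈ patterns l) : patterns z ⊆ patterns l := by
  rw [mem_patterns] at h
  obtain ⟨s, hs, rfl⟩ := h
  rw [patterns_std]
  exact patterns_mono hs

theorem std_of_mem {z l : List ℕ} (h : z ∈ patterns l) : std z = z := by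
  rw [mem_patterns] at h
  obtain ⟨s, _, rfl⟩ := h
  exact std_std s

theorem length_le_of_mem {z l : List ℕ} (h : z ∈ patterns l) : z.length ≤ l.length := by
  rw [mem_patterns] at h
  obtain ⟨s, hs, rfl⟩ := h
  rw [std_length]
  exact hs.length_le

theorem eq_of_mem_of_length {z l : List ℕ} (hl : std l = l) (h : z ∈ patterns l)
    (hlen : l.length ≤ z.length) : z = l := by
  rw [mem_patterns] at h
  obtain ⟨s, hs, rfl⟩ := h
  rw [std_length] at hlen
  rw [hs.eq_of_length_le hlen, hl]

theorem self_mem {l : List ℕ} (hl : std l = l) : l ∈ patterns l :=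
  (mem_patterns l l).mpr ⟨l, List.Sublist.refl l, hl⟩

/-- The interval `[σ, w]`. -/
def Int' (σ w : List ℕ) : Finset (List ℕ) := (patterns w).filter (fun z => σ ∈ patterns z)

theorem mem_Int (σ w z : List ℕ) : z ∈ Int' σ w ↔ z ∈ patterns w ∧ σ ∈ patterns z := by
  simp [Int']

theorem mu_self (σ : List ℕ) : mu σ σ = 1 := by rw [mu_eq]; simp

theorem Int_eq {σ w : List ℕ} (hw : std w = w) (hσw : σ ∈ patterns w) :
    Int' σ w = insert w ((patterns w).filter (fun z => z.length < w.length ∧ 1 ≤ occ σ z)) := by
  ext z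
  rw [mem_Int, Finset.mem_insert, Finset.mem_filter, occ_pos_iff]
  constructor
  · rintro ⟨h1, h2⟩
    by_cases hz : z.length < w.length
    · exact Or.inr ⟨h1, hz, h2⟩
    · exact Or.inl (eq_of_mem_of_length hw h1 (by omega))
  · rintro (rfl | ⟨h1, _, h2⟩)
    · exact ⟨self_mem hw, hσw⟩
    · exact ⟨h1, h2⟩

theorem sum_zero {σ w : List ℕ} (hw : std w = w) (hσw : σ ∈ patterns w) (hne : σ ≠ w) :
    ∑ z ∈ Int' σ w, mu σ z = 0 := by
  rw [Int_eq hw hσw, Finset.sum_insert (by simp)]
  have h := mu_eq σ w
  have hocc : occ σ w ≠ 0 := by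
    have := (occ_pos_iff σ w).mpr hσw
    omega
  rw [if_neg hne, if_neg hocc] at h
  rw [h]
  ring

theorem Int_self {σ : List ℕ} (h : std σ = σ) : Int' σ σ = {σ} := by
  ext z
  rw [mem_Int, Finset.mem_singleton]
  constructor
  · rintro ⟨h1, h2⟩
    have a := length_le_of_mem h1
    have b := length_le_of_mem h2
    exact eq_of_mem_of_length h h1 b
  · rintro rfl
    exact ⟨self_mem h, self_mem h⟩

/-! ### direct sums -/

def ds (a b : List ℕ) : List ℕ := a ++ b.map (· + a.length)

theorem ds_length (a b : List ℕ) : (ds a b).length = a.length + b.length := by simp [ds]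

theorem std_append (s t : List ℕ) (h : ∀ x ∈ s, ∀ y ∈ t, x < y) :
    std (s ++ t) = ds (std s) (std t) := by
  unfold ds
  rw [std_length]
  show (s ++ t).map _ = s.map _ ++ (t.map _).map _
  rw [List.map_append, List.map_map]
  congr 1
  · apply List.map_congr_left
    intro x hx
    rw [List.filter_append]
    have : t.filter (fun y => decide (y ≤ x)) = [] := by
      rw [List.filter_eq_nil_iff]
      intro y hy
      have := h x hx y hy
      simp; omega
    rw [this, List.append_nil]
  · apply List.map_congr_left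
    intro y hy
    rw [List.filter_append]
    have : s.filter (fun z => decide (z ≤ y)) = s := by
      rw [List.filter_eq_self]
      intro z hz
      have := h z hz y hy
      simp; omega
    rw [this, List.length_append]
    simp only [Function.comp]
    omega

theorem std_shift (b : List ℕ) (k : ℕ) : std (b.map (· + k)) = std b :=
  std_map b _ (fun x _ y _ => by simp)

theorem rk_le_length (l : List ℕ) (x : ℕ) : rk l x ≤ l.length := List.length_filter_le _ _

theorem rk_pos {l : List ℕ} {x : ℕ} (hx : x ∈ l) : 1 ≤ rk l x := by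
  unfold rk
  rw [Nat.one_le_iff_ne_zero, ← Nat.pos_iff_ne_zero, List.length_pos_iff_exists_mem]
  exact ⟨x, by simp [hx]⟩

theorem entry_le {l : List ℕ} (hl : std l = l) {x : ℕ} (hx : x ∈ l) : 1 ≤ x ∧ x ≤ l.length := by
  rw [← hl, std_eq_map, List.mem_map] at hx
  obtain ⟨y, hy, rfl⟩ := hx
  exact ⟨rk_pos hy, rk_le_length l y⟩

theorem std_ds {a b : List ℕ} (ha : std a = a) (hb : std b = b) : std (ds a b) = ds a b := by
  unfold ds
  rw [std_append, std_shift, ha, hb]
  · rfl
  · intro x hx y hy
    rw [List.mem_map] at hy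
    obtain ⟨z, hz, rfl⟩ := hy
    have h1 := (entry_le ha hx).2
    have h2 := (entry_le hb hz).1
    omega

/-- Sublists of a direct sum. -/
theorem sub_ds {w w0 s : List ℕ} (hw : std w = w) (hw0 : std w0 = w0) (hs : s.Sublist (ds w w0)) :
    ∃ s1 s0 : List ℕ, s1.Sublist w ∧ s0.Sublist w0 ∧ s = s1 ++ s0.map (· + w.length) ∧
      std s = ds (std s1) (std s0) := by
  unfold ds at hs
  obtain ⟨s1, s2, rfl, h1, h2⟩ := List.sublist_append_iff.mp hs
  obtain ⟨s0, h0, rfl⟩ := List.sublist_map_iff.mp h2
  refine ⟨s1, s0, h1, h0, rfl, ?_⟩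
  rw [std_append, std_shift]
  intro x hx y hy
  rw [List.mem_map] at hy
  obtain ⟨z, hz, rfl⟩ := hy
  have a1 := (entry_le hw (h1.subset hx)).2
  have a2 := (entry_le hw0 (h0.subset hz)).1
  omega

theorem ds_sub {w w0 s1 s0 : List ℕ} (hw : std w = w) (hw0 : std w0 = w0) (h1 : s1.Sublist w)
    (h0 : s0.Sublist w0) :
    (s1 ++ s0.map (· + w.length)).Sublist (ds w w0) ∧
      std (s1 ++ s0.map (· + w.length)) = ds (std s1) (std s0) := by
  constructor
  · exact h1.append (h0.map _)
  · rw [std_append, std_shift]
    intro x hx y hy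
    rw [List.mem_map] at hy
    obtain ⟨z, hz, rfl⟩ := hy
    have a1 := (entry_le hw (h1.subset hx)).2
    have a2 := (entry_le hw0 (h0.subset hz)).1
    omega

/-- Comparing two direct decompositions. -/
theorem ds_compare {a b c d : List ℕ} (h : ds a b = ds c d) (hlen : a.length < c.length) :
    ∃ B : List ℕ, B ≠ [] ∧ b = ds B d ∧ B.length = c.length - a.length := by
  unfold ds at h
  have h1 := congrArg (List.drop a.length) h
  rw [List.drop_left, List.drop_append_of_le_length hlen.le] at h1
  -- b.map (+|a|) = c.drop |a| ++ d.map (+|c|)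
  refine ⟨(c.drop a.length).map (· - a.length), ?_, ?_, ?_⟩
  · intro hc
    have := congrArg List.length hc
    simp at this
    omega
  · have h2 : b = (b.map (· + a.length)).map (· - a.length) := by
      rw [List.map_map]
      have : ((fun x => x - a.length) ∘ fun x => x + a.length) = id := by
        funext x; simp
      rw [this, List.map_id]
    rw [h2, h1, List.map_append]
    unfold ds
    congr 1
    rw [List.map_map]
    apply List.map_congr_left
    intro x _
    simp only [Function.comp, List.length_map, List.length_drop]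
    omega
  · simp

end Pool.Agent.H28.PM
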