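import Mathlib

set_option autoImplicit false

/-! Definitions used in the statement. Permutations are written in one-line notation. -/

namespace Pool.Agent.H28.PM

/-- `l` is a permutation of `1, ..., n` (with `n = l.length ≥ 1`) in one-line notation. -/
def IsPermutation (l : List ℕ) : Prop := 1 ≤ l.length ∧ l.Perm (List.range' 1 l.length)

/-- Standardisation: every entry is replaced by its rank, the number of entries not exceeding it.
Two words with distinct entries are order-isomorphic iff their standardisations agree. -/
def std (l : List ℕ) : List ℕ := l.map (fun x => (l.filter (fun y => decide (y ≤ x))).length)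

/-- `ν(σ, τ)`: the number of occurrences of `σ` in `τ`, i.e. of the subsequences (one for each set of
positions, `List.sublists`) of `τ` that are order-isomorphic to `σ`. -/
def occ (σ τ : List ℕ) : ℕ := (τ.sublists.filter (fun s => decide (std s = σ))).length

/-- The finite set of all patterns contained in `τ`. -/
def patterns (τ : List ℕ) : Finset (List ℕ) := (τ.sublists.map std).toFinset

/-- The Moebius function of the poset of permutations: `μ(σ, σ) = 1`, `μ(σ, τ) = 0` if `σ` is not
contained in `τ`, and `μ(σ, τ) = - ∑_{σ ≤ z < τ} μ(σ, z)` otherwise; here `z < τ` means that `z` is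
a pattern of `τ` shorter than `τ`, and `σ ≤ z` means that `σ` occurs in `z`. -/
def mu (σ τ : List ℕ) : ℤ :=
  if σ = τ then 1
  else if occ σ τ = 0 then 0
  else - ∑ z ∈ ((patterns τ).filter (fun z => z.length < τ.length ∧ 1 ≤ occ σ z)).attach, mu σ z.1
termination_by τ.length
decreasing_by
  have h := z.2
  rw [Finset.mem_filter] at h
  exact h.2.1

end Pool.Agent.H28.PM
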