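import Pool.Agent.H28.PM.Base

set_option autoImplicit false

namespace Pool.Agent.H28.PM

theorem mem_submasks (m c : ℕ) : c ∈ submasks m ↔ c < 256 ∧ c &&& m = c := by simp [submasks]

theorem sub_eq_filter {l s : List ℕ} (hl : l.Nodup) (h : s.Sublist l) :
    s = l.filter (fun x => decide (x ∈ s)) := by
  induction h with
  | slnil => rfl
  | @cons s l' a h ih =>
    rw [List.nodup_cons] at hl
    have ha : a ∉ s := fun hc => hl.1 (h.subset hc)
    rw [List.filter_cons_of_neg (by simpa using ha)]
    exact ih hl.2
  | @cons_cons s l' a h ih =>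
    rw [List.nodup_cons] at hl
    rw [List.filter_cons_of_pos (by simp)]
    congr 1
    rw [ih hl.2]
    apply List.filter_congr
    intro x hx
    have hne : x ≠ a := fun hc => hl.1 (hc ▸ hx)
    rw [← ih hl.2]
    simp [hne]

theorem t0_nodup : t0.Nodup := by decide

theorem std_t0 : std t0 = t0 := by decide +kernel
theorem std_s0 : std s0 = s0 := by decide +kernel

theorem s0_unique : ∀ t ∈ t0.sublistsLen 5, std t = s0 → t = s0 := by decide +kernel

theorem s0_unique' {t : List ℕ} (h : t.Sublist t0) (h2 : std t = s0) : t = s0 := by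
  apply s0_unique t _ h2
  rw [List.mem_sublistsLen]
  refine ⟨h, ?_⟩
  have := congrArg List.length h2
  rwa [std_length] at this

theorem uniq0 : Uniq s0 t0 := ⟨s0, by decide, std_s0, fun _ h h2 => s0_unique' h h2⟩

theorem SI0 : ∀ C b : List ℕ, std b = b → C ≠ [] → s0 = ds C b → b = [] := by
  intro C b hb hC h
  by_contra hne
  have h1 : s0.getLast? = (ds C b).getLast? := by rw [h]
  unfold ds at h1
  rw [List.getLast?_append, List.getLast?_map, List.getLast?_eq_some_getLast hne] at h1
  simp only [Option.map_some, Option.some_or] at h1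
  have h2 : s0.getLast? = some 1 := rfl
  rw [h2, Option.some_inj] at h1
  have h3 := (entry_le hb (List.getLast_mem hne)).1
  have h4 : 0 < C.length := List.length_pos_iff.mpr hC
  omega

theorem II0 : ∀ B : List ℕ, B ≠ [] → ds B s0 ∉ patterns t0 := by
  intro B hB h
  rw [mem_patterns] at h
  obtain ⟨s, hs, hs2⟩ := h
  have hlen : s.length = B.length + s0.length := by
    rw [← std_length s, hs2, ds_length]
  have h1 : std (s.drop B.length) = s0 := by
    have e1 : (std s).drop B.length = (s.drop B.length).map (rk s) := by
      rw [std_eq_map, List.map_drop]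
    have e2 := std_sub_map s (s.drop B.length) (fun x hx => List.mem_of_mem_drop hx)
    rw [← e1, hs2] at e2
    unfold ds at e2
    rw [List.drop_left, std_shift, std_s0] at e2
    exact e2.symm
  have h2 := s0_unique' ((List.drop_sublist _ _).trans hs) h1
  cases s with
  | nil => simp [s0] at hlen
  | cons x l =>
    have hB2 : 0 < B.length := List.length_pos_iff.mpr hB
    obtain ⟨k, hk⟩ : ∃ k, B.length = k + 1 := ⟨B.length - 1, by omega⟩
    rw [hk, List.drop_succ_cons] at h2
    have h5 : 5 ∈ l := by
      apply List.mem_of_mem_drop (i := k)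
      rw [h2]
      decide
    have h6 : l.Sublist t0.tail := hs.tail
    have : 5 ∈ t0.tail := h6.subset h5
    exact absurd this (by decide)

theorem sub_sublist {c m : ℕ} (h : c &&& m = c) : (sub c).Sublist (sub m) := by
  unfold sub
  apply List.monotone_filter_right
  intro x hx
  rw [Bool.or_eq_true] at hx ⊢
  rcases hx with hx | hx
  · exact Or.inl hx
  · right
    rw [← h, Nat.testBit_and, Bool.and_eq_true] at hx
    exact hx.2

theorem sub_zero : sub 0 = s0 := by decide +kernel

theorem s0_mem_P (m : ℕ) : s0 ∈ patterns (P m) := by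
  unfold P
  rw [patterns_std, mem_patterns]
  refine ⟨sub 0, sub_sublist (by simp), ?_⟩
  rw [sub_zero, std_s0]

theorem std_P (m : ℕ) : std (P m) = P m := std_std _

theorem exists_mask (p : ℕ → Bool) : ∃ c < 256, ∀ j, c.testBit j = (decide (j < 8) && p j) := by
  refine ⟨Nat.ofBits (fun i : Fin 8 => p i), Nat.ofBits_lt_two_pow _, ?_⟩
  intro j
  by_cases hj : j < 8
  · rw [Nat.testBit_ofBits_lt _ _ hj]; simp [hj]
  · rw [Nat.testBit_ofBits_ge _ _ (by omega)]; simp [hj]

theorem interval_eq {m : ℕ} (hm : m < 256) : Int' s0 (P m) = (submasks m).image P := by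
  ext z
  rw [mem_Int, Finset.mem_image]
  constructor
  · rintro ⟨h1, h2⟩
    unfold P at h1
    rw [patterns_std, mem_patterns] at h1
    obtain ⟨s, hs, rfl⟩ := h1
    rw [patterns_std, mem_patterns] at h2
    obtain ⟨t, ht, ht2⟩ := h2
    have hst : s.Sublist t0 := hs.trans (List.filter_sublist ..)
    have h3 := s0_unique' (ht.trans hst) ht2
    subst h3
    obtain ⟨c, hc, hc2⟩ := exists_mask (fun j => decide (j + 6 ∈ s))
    have hsc : s = sub c := by
      rw [sub_eq_filter t0_nodup hst]
      unfold sub
      apply List.filter_congr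
      intro x hx
      have hx13 : x ≤ 13 ∧ 1 ≤ x := by
        have := entry_le std_t0 hx
        exact ⟨this.2, this.1⟩
      by_cases hx5 : x ≤ 5
      · have : x ∈ s := by
          apply ht.subset
          have := hx13.2
          simp only [s0]
          interval_cases x <;> simp
        simp [hx5, this]
      · rw [hc2]
        have e1 : x - 6 < 8 := by omega
        have e2 : x - 6 + 6 = x := by omega
        simp [hx5, e1, e2]
    refine ⟨c, ?_, ?_⟩
    · rw [mem_submasks]
      refine ⟨hc, ?_⟩
      apply Nat.eq_of_testBit_eq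
      intro j
      rw [Nat.testBit_and]
      cases hcj : c.testBit j with
      | false => rfl
      | true =>
        rw [Bool.true_and]
        rw [hc2, Bool.and_eq_true, decide_eq_true_eq, decide_eq_true_eq] at hcj
        have := hs.subset hcj.2
        unfold sub at this
        rw [List.mem_filter, Bool.or_eq_true, decide_eq_true_eq] at this
        rcases this.2 with h | h
        · omega
        · simpa using h
    · unfold P
      rw [← hsc]
  · rintro ⟨c, hc, rfl⟩
    rw [mem_submasks] at hc
    refine ⟨?_, s0_mem_P c⟩
    unfold P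
    rw [patterns_std, mem_patterns]
    exact ⟨sub c, sub_sublist hc.2, rfl⟩

theorem mem_reps {m : ℕ} (hm : m < 256) : rep m ∈ reps := by
  unfold reps
  rw [List.mem_filter, List.mem_range, beq_iff_eq]
  have := rep_le m hm
  exact ⟨by omega, this.2.1⟩

theorem P_inj {a b : ℕ} (ha : a ∈ reps) (hb : b ∈ reps) (h : P a = P b) : a = b :=
  List.inj_on_of_nodup_map codes_nodup ha hb (by simp only [h])

theorem image_eq (m : ℕ) : (submasks m).image P = ((submasks m).image rep).image P := by
  rw [Finset.image_image]
  apply Finset.image_congr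
  intro c hc
  rw [Finset.mem_coe, mem_submasks] at hc
  exact (P_rep c hc.1).symm

theorem self_mem_submasks {m : ℕ} (hm : m < 256) : m ∈ submasks m := by
  rw [mem_submasks]; exact ⟨hm, by simp⟩

theorem mu_P : ∀ m : ℕ, m < 256 → mu s0 (P m) = G m := by
  intro m
  induction m using Nat.strong_induction_on with
  | _ m ih =>
    intro hm
    by_cases hrep : rep m = m
    · by_cases h0 : m = 0
      · subst h0
        have : P 0 = s0 := by unfold P; rw [sub_zero, std_s0]
        rw [this, mu_self, G_zero]
      · have h1 := sum_zero (std_P m) (s0_mem_P m) (P_ne m hm h0).symm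
        rw [interval_eq hm, image_eq, Finset.sum_image] at h1
        swap
        · intro a ha b hb hab
          rw [Finset.mem_coe, Finset.mem_image] at ha hb
          obtain ⟨a', ha', rfl⟩ := ha
          obtain ⟨b', hb', rfl⟩ := hb
          rw [mem_submasks] at ha' hb'
          exact P_inj (mem_reps ha'.1) (mem_reps hb'.1) hab
        have h2 := sum_check m hm h0 hrep
        have hmem : m ∈ (submasks m).image rep :=
          Finset.mem_image.mpr ⟨m, self_mem_submasks hm, hrep⟩
        rw [← Finset.add_sum_erase _ _ hmem] at h1 h2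
        have h3 : ∑ x ∈ ((submasks m).image rep).erase m, mu s0 (P x) =
            ∑ x ∈ ((submasks m).image rep).erase m, G x := by
          apply Finset.sum_congr rfl
          intro r hr
          rw [Finset.mem_erase, Finset.mem_image] at hr
          obtain ⟨hne, c, hc, rfl⟩ := hr
          rw [mem_submasks] at hc
          have hle := rep_le c hc.1
          have hcm : c ≤ m := by
            rw [← hc.2]; exact Nat.and_le_right
          exact ih (rep c) (by omega) (by omega)
        rw [h3] at h1
        linarith
    · have hle := rep_le m hm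
      rw [← P_rep m hm, ih (rep m) (by omega) (by omega), hle.2.2]

theorem mu_base : mu s0 t0 = 2 := by
  have := mu_P 255 (by norm_num)
  rwa [P_top, G_top] at this

/-- the iterated direct sums. -/
def sig : ℕ → List ℕ
  | 0 => []
  | m + 1 => ds (sig m) s0

def tau : ℕ → List ℕ
  | 0 => []
  | m + 1 => ds (tau m) t0

theorem std_sig (m : ℕ) : std (sig m) = sig m := by
  induction m with
  | zero => rfl
  | succ m ih => exact std_ds ih std_s0

theorem std_tau (m : ℕ) : std (tau m) = tau m := by
  induction m with
  | zero => rfl
  | succ m ih => exact std_ds ih std_t0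

theorem cond (m : ℕ) : Cond (sig m) (tau m) s0 t0 := by
  induction m with
  | zero =>
    refine ⟨rfl, rfl, std_s0, std_t0, SI0, ?_, II0⟩
    intro h
    have := length_le_of_mem h
    simp [ds, sig, tau, s0] at this
  | succ m ih =>
    exact ⟨std_sig _, std_tau _, std_s0, std_t0, SI0, ih.nextI (by simp [s0]), II0⟩

theorem uniq (m : ℕ) : Uniq (sig m) (tau m) := by
  induction m with
  | zero =>
    refine ⟨[], List.Sublist.refl _, rfl, ?_⟩
    intro s hs _
    simpa [tau] using hs
  | succ m ih => exact (cond m).uniq ih uniq0

theorem sig_mem (m : ℕ) : sig m ∈ patterns (tau m) := by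
  obtain ⟨s, h1, h2, _⟩ := uniq m
  exact (mem_patterns _ _).mpr ⟨s, h1, h2⟩

theorem mu_tau (m : ℕ) : mu (sig m) (tau m) = 2 ^ m := by
  induction m with
  | zero => simp [sig, tau, mu_self]
  | succ m ih =>
    show mu (ds (sig m) s0) (ds (tau m) t0) = _
    rw [(cond m).mul _ (tau m) t0 le_rfl (self_mem (std_tau m)) (self_mem std_t0) (sig_mem m)
      (sig_mem 1), ih, mu_base, pow_succ]

theorem perm_ds {a b : List ℕ} (ha : a.Perm (List.range' 1 a.length))
    (hb : b.Perm (List.range' 1 b.length)) : (ds a b).Perm (List.range' 1 (ds a b).length) := by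
  unfold ds
  rw [List.length_append, List.length_map]
  have h1 : (b.map (· + a.length)).Perm ((List.range' 1 b.length).map (· + a.length)) := hb.map _
  have h2 : (List.range' 1 b.length).map (· + a.length) = List.range' (1 + a.length) b.length := by
    have : (fun x : ℕ => x + a.length) = (fun x => a.length + x) := by
      funext x; exact Nat.add_comm _ _
    rw [this, List.map_add_range', Nat.add_comm]
  rw [h2] at h1
  have h3 : List.range' 1 (a.length + b.length) = List.range' 1 a.length ++
      List.range' (1 + a.length) b.length := by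
    rw [List.range'_append_1]
  rw [h3]
  exact ha.append h1

theorem perm_sig (m : ℕ) : (sig m).Perm (List.range' 1 (sig m).length) := by
  induction m with
  | zero => exact List.Perm.refl _
  | succ m ih => exact perm_ds ih (by decide)

theorem perm_tau (m : ℕ) : (tau m).Perm (List.range' 1 (tau m).length) := by
  induction m with
  | zero => exact List.Perm.refl _
  | succ m ih => exact perm_ds ih (by decide)

theorem main (m : ℕ) : IsPermutation (sig (m + 1)) ∧ IsPermutation (tau (m + 1)) ∧
    occ (sig (m + 1)) (tau (m + 1)) = 1 ∧ mu (sig (m + 1)) (tau (m + 1)) = 2 ^ (m + 1) := by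
  refine ⟨⟨?_, perm_sig _⟩, ⟨?_, perm_tau _⟩, ?_, mu_tau _⟩
  · show 1 ≤ (ds (sig m) s0).length
    rw [ds_length]; simp [s0]
  · show 1 ≤ (ds (tau m) t0).length
    rw [ds_length]; simp [t0]
  · apply occ_of_uniq _ (uniq _)
    rw [(perm_tau _).nodup_iff]
    exact List.nodup_range' ..

end Pool.Agent.H28.PM
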