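import Pool.Agent.H28.PM.Basic

set_option autoImplicit false

namespace Pool.Agent.H28.PM

structure Cond (σ τ σ0 τ0 : List ℕ) : Prop where
  hσ : std σ = σ
  hτ : std τ = τ
  hσ0 : std σ0 = σ0
  hτ0 : std τ0 = τ0
  SI : ∀ C b : List ℕ, std b = b → C ≠ [] → σ0 = ds C b → b = []
  I : ds σ σ0 ∉ patterns τ
  II : ∀ B : List ℕ, B ≠ [] → ds B σ0 ∉ patterns τ0

theorem ds_nil (a : List ℕ) : ds a [] = a := by simp [ds]

theorem ds_inj {a b c d : List ℕ} (h : ds a b = ds c d) (hlen : a.length = c.length) :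
    a = c ∧ b = d := by
  unfold ds at h
  obtain ⟨h1, h2⟩ := List.append_inj h hlen
  subst h1
  refine ⟨rfl, ?_⟩
  have : Function.Injective (fun x => x + a.length) := fun x y hxy => by simpa using hxy
  exact List.map_injective_iff.mpr this h2

theorem ds_mem {w w0 z1 z0 : List ℕ} (hw : std w = w) (hw0 : std w0 = w0)
    (h1 : z1 ∈ patterns w) (h0 : z0 ∈ patterns w0) : ds z1 z0 ∈ patterns (ds w w0) := by
  rw [mem_patterns] at h1 h0 ⊢
  obtain ⟨s1, hs1, rfl⟩ := h1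
  obtain ⟨s0, hs0, rfl⟩ := h0
  have := ds_sub hw hw0 hs1 hs0
  exact ⟨_, this.1, this.2⟩

theorem mem_ds {w w0 z : List ℕ} (hw : std w = w) (hw0 : std w0 = w0)
    (h : z ∈ patterns (ds w w0)) : ∃ z1 ∈ patterns w, ∃ z0 ∈ patterns w0, z = ds z1 z0 := by
  rw [mem_patterns] at h
  obtain ⟨s, hs, rfl⟩ := h
  obtain ⟨s1, s0, h1, h0, _, h⟩ := sub_ds hw hw0 hs
  exact ⟨std s1, (mem_patterns _ _).mpr ⟨s1, h1, rfl⟩, std s0, (mem_patterns _ _).mpr ⟨s0, h0, rfl⟩, h⟩

variable {σ τ σ0 τ0 : List ℕ}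

theorem Cond.split (c : Cond σ τ σ0 τ0) {z1 z0 : List ℕ} (h1 : z1 ∈ patterns τ)
    (h0 : z0 ∈ patterns τ0) (h : ds σ σ0 = ds z1 z0) : σ = z1 ∧ σ0 = z0 := by
  rcases lt_trichotomy z1.length σ.length with hl | hl | hl
  · exfalso
    obtain ⟨B, hB, hB2, _⟩ := ds_compare h.symm hl
    exact c.II B hB (hB2 ▸ h0)
  · exact ds_inj h hl.symm
  · exfalso
    obtain ⟨B, hB, hB2, _⟩ := ds_compare h hl
    have := c.SI B z0 (std_of_mem h0) hB hB2
    subst this
    rw [ds_nil] at h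
    exact c.I (h ▸ h1)

theorem Cond.mem_interval (c : Cond σ τ σ0 τ0) {w w0 : List ℕ} (hw : w ∈ patterns τ)
    (hw0 : w0 ∈ patterns τ0) (z : List ℕ) :
    z ∈ Int' (ds σ σ0) (ds w w0) ↔ ∃ z1 ∈ Int' σ w, ∃ z0 ∈ Int' σ0 w0, z = ds z1 z0 := by
  have sw := std_of_mem hw
  have sw0 := std_of_mem hw0
  rw [mem_Int]
  constructor
  · rintro ⟨h1, h2⟩
    obtain ⟨z1, hz1, z0, hz0, rfl⟩ := mem_ds sw sw0 h1
    obtain ⟨y1, hy1, y0, hy0, hy⟩ := mem_ds (std_of_mem hz1) (std_of_mem hz0) h2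
    have m1 : z1 ∈ patterns τ := patterns_trans hw hz1
    have m0 : z0 ∈ patterns τ0 := patterns_trans hw0 hz0
    obtain ⟨e1, e0⟩ := c.split (patterns_trans m1 hy1) (patterns_trans m0 hy0) hy
    subst e1 e0
    exact ⟨z1, (mem_Int _ _ _).mpr ⟨hz1, hy1⟩, z0, (mem_Int _ _ _).mpr ⟨hz0, hy0⟩, rfl⟩
  · rintro ⟨z1, hz1, z0, hz0, rfl⟩
    rw [mem_Int] at hz1 hz0
    exact ⟨ds_mem sw sw0 hz1.1 hz0.1, ds_mem (std_of_mem hz1.1) (std_of_mem hz0.1) hz1.2 hz0.2⟩

/-- Auxiliary: no comparison of different lengths. -/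
theorem Cond.no_lt (c : Cond σ τ σ0 τ0) {z1 z0 y1 y0 : List ℕ} (hy1 : std y1 = y1)
    (hy0 : std y0 = y0)
    (hz0 : z0 ∈ patterns τ0) (hs : σ0 ∈ patterns y0) (h : ds z1 z0 = ds y1 y0) :
    ¬ z1.length < y1.length := by
  intro hlt
  have h' := h
  unfold ds at h'
  have h1 := congrArg (List.drop z1.length) h'
  rw [List.drop_left, List.drop_append_of_le_length hlt.le] at h1
  obtain ⟨t, ht, rfl⟩ := (mem_patterns _ _).mp hs
  have hsub : ((y1.drop z1.length) ++ t.map (· + y1.length)).Sublist (z0.map (· + z1.length)) := by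
    rw [h1]
    exact (List.Sublist.refl _).append (ht.map _)
  obtain ⟨s, hs', hs2⟩ := List.sublist_map_iff.mp hsub
  have hstd : std ((y1.drop z1.length) ++ t.map (· + y1.length)) =
      ds (std (y1.drop z1.length)) (std t) := by
    rw [std_append, std_shift]
    intro x hx y hy
    rw [List.mem_map] at hy
    obtain ⟨z, hz, rfl⟩ := hy
    have a1 := (entry_le hy1 (List.mem_of_mem_drop hx)).2
    have a2 := (entry_le hy0 (ht.subset hz)).1
    omega
  refine c.II (std (y1.drop z1.length)) ?_ ?_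
  · intro hc
    have := congrArg List.length hc
    simp at this
    omega
  · rw [← hstd, hs2, std_shift]
    exact patterns_trans hz0 ((mem_patterns _ _).mpr ⟨s, hs', rfl⟩)

theorem Cond.inj (c : Cond σ τ σ0 τ0) {w w0 : List ℕ} (hw : w ∈ patterns τ)
    (hw0 : w0 ∈ patterns τ0) {z1 z0 y1 y0 : List ℕ} (a1 : z1 ∈ Int' σ w) (a0 : z0 ∈ Int' σ0 w0)
    (b1 : y1 ∈ Int' σ w) (b0 : y0 ∈ Int' σ0 w0) (h : ds z1 z0 = ds y1 y0) : z1 = y1 ∧ z0 = y0 := by
  rw [mem_Int] at a1 a0 b1 b0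
  have h1 := c.no_lt (std_of_mem b1.1) (std_of_mem b0.1) (patterns_trans hw0 a0.1) b0.2 h
  have h2 := c.no_lt (std_of_mem a1.1) (std_of_mem a0.1) (patterns_trans hw0 b0.1) a0.2 h.symm
  exact ds_inj h (by omega)

theorem Cond.mul (c : Cond σ τ σ0 τ0) : ∀ (n : ℕ) (w w0 : List ℕ), w.length + w0.length ≤ n →
    w ∈ patterns τ → w0 ∈ patterns τ0 → σ ∈ patterns w → σ0 ∈ patterns w0 →
    mu (ds σ σ0) (ds w w0) = mu σ w * mu σ0 w0 := by
  intro n
  induction n using Nat.strong_induction_on with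
  | _ n ih =>
    intro w w0 hn hw hw0 hσw hσ0w0
    have sw := std_of_mem hw
    have sw0 := std_of_mem hw0
    by_cases heq : w = σ ∧ w0 = σ0
    · obtain ⟨rfl, rfl⟩ := heq
      rw [mu_self, mu_self, mu_self]; ring
    · have hne : ds σ σ0 ≠ ds w w0 := by
        intro h
        obtain ⟨e1, e0⟩ := c.split hw hw0 h
        exact heq ⟨e1.symm, e0.symm⟩
      have hsum := sum_zero (std_ds sw sw0) (ds_mem sw sw0 hσw hσ0w0) hne
      -- rewrite the interval as an image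
      have himg : Int' (ds σ σ0) (ds w w0) =
          (Int' σ w ×ˢ Int' σ0 w0).image (fun p => ds p.1 p.2) := by
        ext z
        rw [c.mem_interval hw hw0 z, Finset.mem_image]
        constructor
        · rintro ⟨z1, h1, z0, h0, rfl⟩
          exact ⟨(z1, z0), Finset.mem_product.mpr ⟨h1, h0⟩, rfl⟩
        · rintro ⟨⟨z1, z0⟩, hp, rfl⟩
          rw [Finset.mem_product] at hp
          exact ⟨z1, hp.1, z0, hp.2, rfl⟩
      rw [himg, Finset.sum_image] at hsum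
      swap
      · rintro ⟨z1, z0⟩ hz ⟨y1, y0⟩ hy h
        simp only [Finset.coe_product, Set.mem_prod, Finset.mem_coe] at hz hy
        obtain ⟨e1, e0⟩ := c.inj hw hw0 hz.1 hz.2 hy.1 hy.2 h
        exact Prod.ext e1 e0
      have htop : ((w, w0) : List ℕ × List ℕ) ∈ Int' σ w ×ˢ Int' σ0 w0 := by
        rw [Finset.mem_product, mem_Int, mem_Int]
        exact ⟨⟨self_mem sw, hσw⟩, ⟨self_mem sw0, hσ0w0⟩⟩
      rw [← Finset.add_sum_erase _ _ htop] at hsum
      have hrest : ∑ p ∈ (Int' σ w ×ˢ Int' σ0 w0).erase (w, w0), mu (ds σ σ0) (ds p.1 p.2) =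
          ∑ p ∈ (Int' σ w ×ˢ Int' σ0 w0).erase (w, w0), mu σ p.1 * mu σ0 p.2 := by
        apply Finset.sum_congr rfl
        rintro ⟨z1, z0⟩ hp
        rw [Finset.mem_erase, Finset.mem_product, mem_Int, mem_Int] at hp
        obtain ⟨hne', ⟨h1, h1'⟩, ⟨h0, h0'⟩⟩ := hp
        simp only at h1 h1' h0 h0'
        have l1 := length_le_of_mem h1
        have l0 := length_le_of_mem h0
        have hlt : z1.length + z0.length < w.length + w0.length := by
          by_contra hc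
          apply hne'
          have e1 : z1 = w := eq_of_mem_of_length sw h1 (by omega)
          have e0 : z0 = w0 := eq_of_mem_of_length sw0 h0 (by omega)
          exact Prod.ext e1 e0
        exact ih (z1.length + z0.length) (by omega) z1 z0 le_rfl (patterns_trans hw h1)
          (patterns_trans hw0 h0) h1' h0'
      rw [hrest] at hsum
      have hprod : ∑ p ∈ Int' σ w ×ˢ Int' σ0 w0, mu σ p.1 * mu σ0 p.2 = 0 := by
        rw [Finset.sum_product, ← Finset.sum_mul_sum]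
        by_cases h1 : σ = w
        · have h0 : σ0 ≠ w0 := fun h => heq ⟨h1.symm, h.symm⟩
          rw [sum_zero sw0 hσ0w0 h0, mul_zero]
        · rw [sum_zero sw hσw h1, zero_mul]
      rw [← Finset.add_sum_erase _ _ htop] at hprod
      simp only at hsum hprod
      linarith

/-- uniqueness of the occurrence. -/
def Uniq (σ τ : List ℕ) : Prop :=
  ∃ s : List ℕ, s.Sublist τ ∧ std s = σ ∧ ∀ s', s'.Sublist τ → std s' = σ → s' = s

theorem Cond.uniq (c : Cond σ τ σ0 τ0) (h : Uniq σ τ) (h0 : Uniq σ0 τ0) :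
    Uniq (ds σ σ0) (ds τ τ0) := by
  obtain ⟨s, hs, hs2, hs3⟩ := h
  obtain ⟨t, ht, ht2, ht3⟩ := h0
  have h1 := ds_sub c.hτ c.hτ0 hs ht
  refine ⟨_, h1.1, by rw [h1.2, hs2, ht2], ?_⟩
  intro s' hs' hs'2
  obtain ⟨s1, s0, k1, k0, rfl, k⟩ := sub_ds c.hτ c.hτ0 hs'
  rw [k] at hs'2
  obtain ⟨e1, e0⟩ := c.split ((mem_patterns _ _).mpr ⟨s1, k1, rfl⟩)
    ((mem_patterns _ _).mpr ⟨s0, k0, rfl⟩) hs'2.symm
  rw [hs3 s1 k1 e1.symm, ht3 s0 k0 e0.symm]

/-- The condition `I` for the next step. -/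
theorem Cond.nextI (c : Cond σ τ σ0 τ0) (hne : σ0 ≠ []) : ds (ds σ σ0) σ0 ∉ patterns (ds τ τ0) := by
  intro h
  obtain ⟨z1, h1, z0, h0, he⟩ := mem_ds c.hτ c.hτ0 h
  rcases lt_trichotomy z1.length (ds σ σ0).length with hl | hl | hl
  · obtain ⟨B, hB, hB2, _⟩ := ds_compare he.symm hl
    exact c.II B hB (hB2 ▸ h0)
  · obtain ⟨e1, e0⟩ := ds_inj he hl.symm
    exact c.I (e1 ▸ h1)
  · obtain ⟨B, hB, hB2, _⟩ := ds_compare he hl
    have := c.SI B z0 (std_of_mem h0) hB hB2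
    subst this
    rw [ds_nil] at he
    -- `z1 = (σ ⊕ σ0) ⊕ σ0` contains `σ ⊕ σ0`
    apply c.I
    refine patterns_trans h1 ?_
    rw [← he]
    rw [mem_patterns]
    refine ⟨ds σ σ0, ?_, std_ds c.hσ c.hσ0⟩
    exact List.sublist_append_left _ _

theorem occ_of_uniq {σ τ : List ℕ} (hnd : τ.Nodup) (h : Uniq σ τ) : occ σ τ = 1 := by
  obtain ⟨s, hs, hs2, hs3⟩ := h
  unfold occ
  have hnd2 : (τ.sublists.filter (fun s => decide (std s = σ))).Nodup :=
    (List.nodup_sublists.mpr hnd).filter _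
  have heq : (τ.sublists.filter (fun s => decide (std s = σ))).Perm [s] := by
    rw [List.perm_ext_iff_of_nodup hnd2 (by simp)]
    intro t
    simp only [List.mem_filter, List.mem_sublists, decide_eq_true_eq, List.mem_singleton]
    constructor
    · rintro ⟨h1, h2⟩
      exact hs3 t h1 h2
    · rintro rfl
      exact ⟨hs, hs2⟩
  rw [heq.length_eq]
  rfl

end Pool.Agent.H28.PM
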